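import Pool.Agent.K1H34.HYC.Stm

/-! LOP: the lopsided local lemma, counting form. -/

set_option autoImplicit false
open Classical Finset

namespace Pool.Agent.K1H26.HYC

open Pool.Agent.K1H34.HYC

section

variable {E : Type} [Fintype E] {a : Finset E → ℝ} {b : E → Finset E → ℝ}
  {nbr : E → E → Prop} {x : E → ℝ}

omit [Fintype E] in
/-- adding the elements of a set one after the other -/
theorem lop_add (hx : ∀ e, 0 ≤ x e ∧ x e < 1)
    (hab : ∀ e T, a (insert e T) = a T - b e T) (T2 S : Finset E)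
    (h : ∀ S' ⊆ S, ∀ e ∈ S, e ∉ S' → b e (T2 ∪ S') ≤ x e * a (T2 ∪ S')) :
    (∏ e ∈ S, (1 - x e)) * a T2 ≤ a (T2 ∪ S) := by
  induction S using Finset.induction_on with
  | empty => simp
  | insert e S he ih =>
    have h1 := ih fun S' hS' e' he' => h S' (hS'.trans (subset_insert _ _)) e' (mem_insert_of_mem he')
    have h2 := h S (subset_insert _ _) e (mem_insert_self _ _) he
    have h3 : T2 ∪ insert e S = insert e (T2 ∪ S) := union_insert _ _ _
    rw [prod_insert he, h3, hab, mul_assoc]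
    have h4 : 0 ≤ 1 - x e := by linarith [(hx e).2]
    have h5 := mul_le_mul_of_nonneg_left h1 h4
    linarith

theorem lop_key (hx : ∀ e, 0 ≤ x e ∧ x e < 1) (ha0 : ∀ T, 0 ≤ a T)
    (hab : ∀ e T, a (insert e T) = a T - b e T) (hmono : ∀ e T T', T ⊆ T' → b e T' ≤ b e T)
    (h : ∀ e, ∀ T : Finset E, (∀ e' ∈ T, ¬ nbr e e') →
      b e T ≤ x e * (∏ e' ∈ univ.filter (fun e' => nbr e e' ∧ e' ≠ e), (1 - x e')) * a T) :
    ∀ (n : ℕ) (T : Finset E), T.card = n → ∀ e, e ∉ T → b e T ≤ x e * a T := by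
  intro n
  induction n using Nat.strong_induction_on with
  | _ n ih =>
    intro T hT e he
    obtain ⟨T1, hT1⟩ : ∃ T1 : Finset E, T1 = T.filter (fun e' => nbr e e') := ⟨_, rfl⟩
    obtain ⟨T2, hT2⟩ : ∃ T2 : Finset E, T2 = T.filter (fun e' => ¬ nbr e e') := ⟨_, rfl⟩
    have hT12 : T2 ∪ T1 = T := by
      rw [hT1, hT2, union_comm]
      exact filter_union_filter_not_eq _ _
    have h1 : b e T ≤ b e T2 := hmono _ _ _ (by rw [hT2]; exact filter_subset _ _)
    have h2 := h e T2 (fun e' he' => by rw [hT2, mem_filter] at he'; exact he'.2)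
    have h3 : (∏ e' ∈ T1, (1 - x e')) * a T2 ≤ a T := by
      rw [← hT12]
      refine lop_add hx hab T2 T1 fun S' hS' e' he' heS' => ?_
      have he'T : e' ∈ T := by rw [hT1, mem_filter] at he'; exact he'.1
      have he'2 : e' ∉ T2 ∪ S' := by
        rw [mem_union]
        rintro (h4 | h4)
        · rw [hT2, mem_filter] at h4
          rw [hT1, mem_filter] at he'
          exact h4.2 he'.2
        · exact heS' h4
      have hsub : T2 ∪ S' ⊂ T := by
        rw [ssubset_iff_of_subset]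
        · exact ⟨e', he'T, he'2⟩
        · rw [← hT12]
          exact union_subset_union_right hS'
      exact ih _ (by rw [← hT]; exact card_lt_card hsub) _ rfl e' he'2
    have h4 : ∏ e' ∈ univ.filter (fun e' => nbr e e' ∧ e' ≠ e), (1 - x e') ≤
        ∏ e' ∈ T1, (1 - x e') := by
      have hsub : T1 ⊆ univ.filter (fun e' => nbr e e' ∧ e' ≠ e) := by
        intro e' he'
        rw [hT1, mem_filter] at he'
        rw [mem_filter]
        refine ⟨mem_univ _, he'.2, ?_⟩
        rintro rfl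
        exact he he'.1
      rw [← prod_sdiff hsub]
      refine mul_le_of_le_one_left (prod_nonneg fun e' _ => by linarith [(hx e').2]) ?_
      exact prod_le_one (fun e' _ => by linarith [(hx e').2]) (fun e' _ => by linarith [(hx e').1])
    have h5 := mul_le_mul_of_nonneg_right h4 (ha0 T2)
    have h6 := mul_le_mul_of_nonneg_left (h5.trans h3) (hx e).1
    linarith

end

theorem t_LOP : S_LOP := by
  intro Ω E _ W B nbr x hW hx h
  have hab : ∀ (e : E) (T : Finset E), ((W.filter (fun ω => ∀ e' ∈ insert e T, ¬ B e' ω)).card : ℝ) =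
      ((W.filter (fun ω => ∀ e' ∈ T, ¬ B e' ω)).card : ℝ) -
        ((W.filter (fun ω => B e ω ∧ ∀ e' ∈ T, ¬ B e' ω)).card : ℝ) := by
    intro e T
    have h1 : (W.filter (fun ω => ∀ e' ∈ T, ¬ B e' ω)).card =
        (W.filter (fun ω => ∀ e' ∈ insert e T, ¬ B e' ω)).card +
        (W.filter (fun ω => B e ω ∧ ∀ e' ∈ T, ¬ B e' ω)).card := by
      rw [← card_union_of_disjoint]
      · congr 1
        ext ω
        simp only [mem_union, mem_filter, mem_insert, forall_eq_or_imp]
        by_cases hB : B e ω <;> simp [hB]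
      · rw [disjoint_left]
        intro ω h2 h3
        rw [mem_filter] at h2 h3
        exact h2.2 e (mem_insert_self _ _) h3.2.1
    rw [h1]
    push_cast
    ring
  have hmono : ∀ e (T T' : Finset E), T ⊆ T' →
      ((W.filter (fun ω => B e ω ∧ ∀ e' ∈ T', ¬ B e' ω)).card : ℝ) ≤
      ((W.filter (fun ω => B e ω ∧ ∀ e' ∈ T, ¬ B e' ω)).card : ℝ) := by
    intro e T T' hTT
    refine Nat.cast_le.2 (card_le_card fun ω hω => ?_)
    rw [mem_filter] at hω ⊢
    exact ⟨hω.1, hω.2.1, fun e' he' => hω.2.2 e' (hTT he')⟩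
  have key := lop_key (a := fun T => ((W.filter (fun ω => ∀ e' ∈ T, ¬ B e' ω)).card : ℝ))
    (b := fun e T => ((W.filter (fun ω => B e ω ∧ ∀ e' ∈ T, ¬ B e' ω)).card : ℝ)) (nbr := nbr)
    hx (fun T => Nat.cast_nonneg _) hab hmono h
  have h1 := lop_add (a := fun T => ((W.filter (fun ω => ∀ e' ∈ T, ¬ B e' ω)).card : ℝ))
    (b := fun e T => ((W.filter (fun ω => B e ω ∧ ∀ e' ∈ T, ¬ B e' ω)).card : ℝ)) hx hab ∅ univ
    (fun S' _ e _ he => key _ _ rfl e (by simpa using he))
  simp only [empty_union] at h1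
  have h2 : 0 < (∏ e : E, (1 - x e)) *
      ((W.filter (fun ω => ∀ e' ∈ (∅ : Finset E), ¬ B e' ω)).card : ℝ) := by
    refine mul_pos (prod_pos fun e _ => by linarith [(hx e).2]) ?_
    rw [filter_true_of_mem (fun ω _ e' he' => absurd he' (notMem_empty _))]
    exact_mod_cast hW.card_pos
  have h3 : 0 < ((W.filter (fun ω => ∀ e' ∈ (univ : Finset E), ¬ B e' ω)).card : ℝ) :=
    h2.trans_le h1
  obtain ⟨ω, hω⟩ := card_pos.1 (by exact_mod_cast h3 :
    0 < (W.filter (fun ω => ∀ e' ∈ (univ : Finset E), ¬ B e' ω)).card)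
  rw [mem_filter] at hω
  exact ⟨ω, hω.1, fun e => hω.2 e (mem_univ _)⟩

end Pool.Agent.K1H26.HYC
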