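import Pool.Agent.K1H34.HYC.Stm

/-! TUP: weight of the (r+1)-subsets of P meeting Q. -/

set_option autoImplicit false
open Classical Finset

namespace Pool.Agent.K1H26.HYC

open Pool.Agent.K1H34.HYC

theorem card_fam {α : Type} (P Q : Finset α) (r : ℕ) :
    ((P.powersetCard (r + 1)).filter (fun τ => ∃ z ∈ τ, z ∈ Q)).card ≤ Q.card * P.card.choose r := by
  have h1 : (P.powersetCard (r + 1)).filter (fun τ => ∃ z ∈ τ, z ∈ Q) ⊆
      Q.biUnion (fun z => (P.powersetCard r).image (insert z)) := by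
    intro τ hτ
    rw [mem_filter, mem_powersetCard] at hτ
    obtain ⟨⟨h2, h3⟩, z, hz, hzQ⟩ := hτ
    rw [mem_biUnion]
    refine ⟨z, hzQ, mem_image.2 ⟨τ.erase z, mem_powersetCard.2 ⟨?_, ?_⟩, insert_erase hz⟩⟩
    · exact (erase_subset _ _).trans h2
    · rw [card_erase_of_mem hz, h3]
      rfl
  refine (card_le_card h1).trans (card_biUnion_le_card_mul _ _ _ fun z _ => ?_)
  exact card_image_le.trans (card_powersetCard _ _).le

theorem choose_bd (n r : ℕ) (t : ℝ) (ht : 0 ≤ t) (h : 6 * (n : ℝ) * t ≤ r) :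
    (n.choose r : ℝ) * t ^ r ≤ (1 / 2) ^ r := by
  have h1 : (n.choose r : ℝ) ≤ (n : ℝ) ^ r / r.factorial := Nat.choose_le_pow_div r n
  have h2 : (r : ℝ) ^ r / r.factorial ≤ Real.exp r :=
    Real.pow_div_factorial_le_exp (r : ℝ) (Nat.cast_nonneg r) r
  have h3 : Real.exp r ≤ 3 ^ r := by
    rw [show (r : ℝ) = r * 1 by ring, Real.exp_nat_mul]
    refine pow_le_pow_left₀ (Real.exp_pos _).le ?_ r
    have := Real.exp_one_lt_d9
    linarith
  have h4 : ((n : ℝ) * t) ^ r ≤ ((r : ℝ) / 6) ^ r := by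
    refine pow_le_pow_left₀ (by positivity) ?_ r
    linarith
  have hf : (0 : ℝ) < r.factorial := by exact_mod_cast Nat.factorial_pos r
  calc (n.choose r : ℝ) * t ^ r ≤ ((n : ℝ) ^ r / r.factorial) * t ^ r :=
        mul_le_mul_of_nonneg_right h1 (by positivity)
    _ = ((n : ℝ) * t) ^ r / r.factorial := by rw [mul_pow]; ring
    _ ≤ ((r : ℝ) / 6) ^ r / r.factorial := by gcongr
    _ = ((r : ℝ) ^ r / r.factorial) * (1 / 6) ^ r := by rw [div_pow, one_div, inv_pow]; ring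
    _ ≤ 3 ^ r * (1 / 6) ^ r := by
        refine mul_le_mul_of_nonneg_right (h2.trans h3) (by positivity)
    _ = (1 / 2) ^ r := by rw [← mul_pow]; norm_num

theorem t_TUP : S_TUP := by
  intro α P Q r t _ ht _ h
  have h1 : ∑ τ ∈ (P.powersetCard (r + 1)).filter (fun τ => ∃ z ∈ τ, z ∈ Q), t ^ τ.card =
      (((P.powersetCard (r + 1)).filter (fun τ => ∃ z ∈ τ, z ∈ Q)).card : ℝ) * t ^ (r + 1) := by
    rw [← nsmul_eq_mul, ← sum_const]
    refine sum_congr rfl fun τ hτ => ?_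
    rw [mem_filter, mem_powersetCard] at hτ
    rw [hτ.1.2]
  rw [h1]
  have h2 : (((P.powersetCard (r + 1)).filter (fun τ => ∃ z ∈ τ, z ∈ Q)).card : ℝ) ≤
      (Q.card : ℝ) * P.card.choose r := by exact_mod_cast card_fam P Q r
  have h3 := choose_bd P.card r t ht h
  calc (((P.powersetCard (r + 1)).filter (fun τ => ∃ z ∈ τ, z ∈ Q)).card : ℝ) * t ^ (r + 1)
      ≤ ((Q.card : ℝ) * P.card.choose r) * t ^ (r + 1) :=
        mul_le_mul_of_nonneg_right h2 (by positivity)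
    _ = (Q.card : ℝ) * t * ((P.card.choose r : ℝ) * t ^ r) := by ring
    _ ≤ (Q.card : ℝ) * t * (1 / 2) ^ r := mul_le_mul_of_nonneg_left h3 (by positivity)

end Pool.Agent.K1H26.HYC
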